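import Pool.Agent.KTH.Final

/-!
# Homogeneously traceable graphs with a spanning theta (MP_2a07a8_co)

The conjectured lower bound `⌈2n/3⌉ + 2` for the circumference of a homogeneously traceable graph
of order `n ≥ 12` holds for all graphs with a spanning theta.
-/

set_option autoImplicit false

namespace Pool.Agent.Results.MP_2a07a8_co.SpanningTheta

/-- `v` is an end vertex of a Hamilton path of `G`. -/
def IsEnd {V : Type} [DecidableEq V] (G : SimpleGraph V) (v : V) : Prop :=
  ∃ (w : V) (p : G.Walk v w), p.IsHamiltonian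

/-- `G` has a spanning theta with the branch vertices `u` and `v`: three paths from `u` to `v`, any
two of which have only `u` and `v` in common, and which together contain all vertices. -/
def SpanningThetaAt {V : Type} (G : SimpleGraph V) (u v : V) : Prop :=
  u ≠ v ∧ ∃ p : Fin 3 → G.Walk u v, (∀ i, (p i).IsPath) ∧
    (∀ i j, i ≠ j → ∀ w, w ∈ (p i).support → w ∈ (p j).support → w = u ∨ w = v) ∧
    ∀ w, ∃ i, w ∈ (p i).support

open Pool.Agent.KTH

variable {V : Type} {G : SimpleGraph V}

theorem walk_of_con : ∀ (L : List V) (a b : V), Con G a L b →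
    ∃ w : G.Walk a b, w.support = a :: (L ++ [b])
  | [], a, b, h => by
    rw [con_nil] at h
    exact ⟨SimpleGraph.Walk.cons h SimpleGraph.Walk.nil, by simp⟩
  | c :: L, a, b, h => by
    rw [con_cons] at h
    obtain ⟨w, hw⟩ := walk_of_con L c b h.2
    exact ⟨SimpleGraph.Walk.cons h.1 w, by simp [hw]⟩

theorem cycle_of_con {L : List V} {u : V} (h : Con G u L u) (hnd : (u :: L).Nodup)
    (hL : 2 ≤ L.length) : ∃ c : G.Walk u u, c.IsCycle ∧ c.length = L.length + 1 := by
  obtain ⟨c, hc⟩ := walk_of_con L u u h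
  have hlen : c.length = L.length + 1 := by
    have h1 := congrArg List.length hc
    simp only [SimpleGraph.Walk.length_support, List.length_cons, List.length_append,
      List.length_nil] at h1
    omega
  refine ⟨c, ?_, hlen⟩
  rw [SimpleGraph.Walk.isCycle_iff_isPath_tail_and_le_length]
  have hnil : ¬ c.Nil := by
    rw [← SimpleGraph.Walk.length_eq_zero_iff]
    omega
  refine ⟨?_, by omega⟩
  rw [SimpleGraph.Walk.isPath_def, SimpleGraph.Walk.support_tail_of_not_nil _ hnil, hc]
  show (L ++ [u]).Nodup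
  exact (List.perm_append_singleton u L).nodup_iff.2 hnd

theorem con_of_walk {u v : V} (p : G.Walk u v) (huv : u ≠ v) :
    ∃ X : List V, p.support = u :: (X ++ [v]) ∧ Con G u X v := by
  have h : ∃ X : List V, p.support = u :: (X ++ [v]) := by
    cases p with
    | nil => exact absurd rfl huv
    | cons h q =>
      rw [SimpleGraph.Walk.support_cons]
      refine ⟨q.support.dropLast, ?_⟩
      have h1 := List.dropLast_append_getLast q.support_ne_nil
      rw [SimpleGraph.Walk.getLast_support] at h1
      rw [h1]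
  obtain ⟨X, hX⟩ := h
  refine ⟨X, hX, ?_⟩
  have h1 := p.isChain_adj_support
  rwa [hX] at h1

theorem hp_of_isEnd [DecidableEq V] {v : V} (h : IsEnd G v) : ∃ P : List V, Hp G v P := by
  obtain ⟨w, p, hp⟩ := h
  refine ⟨p.support.tail, ?_, ?_, ?_⟩
  · rw [SimpleGraph.Walk.cons_tail_support]
    exact p.isChain_adj_support
  · rw [SimpleGraph.Walk.cons_tail_support]
    exact hp.isPath.support_nodup
  · rw [SimpleGraph.Walk.cons_tail_support]
    exact hp.mem_support

theorem result : ∀ (V : Type) [Fintype V] [DecidableEq V] (G : SimpleGraph V) (u v : V),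
    12 ≤ Fintype.card V → SpanningThetaAt G u v → IsEnd G u → IsEnd G v →
    ∃ (x : V) (c : G.Walk x x), c.IsCycle ∧ ⌈(2 * Fintype.card V : ℚ) / 3⌉₊ + 2 ≤ c.length := by
  intro V _ _ G u v hn hT hu hv
  by_contra hcon
  push Not at hcon
  obtain ⟨N, hN⟩ : ∃ N, N = Fintype.card V := ⟨_, rfl⟩
  have hB : Bd G N := by
    intro x L h1 h2 h3
    obtain ⟨c, hc, hl⟩ := cycle_of_con h1 h2 h3
    have h4 := hcon x c hc
    rw [hl, ← hN] at h4
    by_contra h5
    push Not at h5
    apply absurd h4
    rw [not_lt]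
    have h6 : ⌈(2 * N : ℚ) / 3⌉₊ ≤ L.length - 1 := by
      rw [Nat.ceil_le, div_le_iff₀ (by norm_num)]
      have h7 : 2 * N ≤ (L.length - 1) * 3 := by omega
      exact_mod_cast h7
    omega
  obtain ⟨huv, p, hp, hdis, hcov⟩ := hT
  choose L hL hC using fun i => con_of_walk (p i) huv
  have hleg : ∀ i, u ∉ L i ∧ v ∉ L i ∧ (L i).Nodup := by
    intro i
    have h1 := (hp i).support_nodup
    rw [hL i] at h1
    simp only [List.nodup_cons, List.mem_append, List.mem_singleton, not_or,
      List.nodup_append] at h1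
    refine ⟨h1.1.1, fun h => ?_, h1.2.1⟩
    exact h1.2.2.2 v h v rfl rfl
  have hmem : ∀ i w, w ∈ L i → w ∈ (p i).support := fun i w hw => by
    rw [hL i]
    simp [hw]
  have hdisj : ∀ i j, i ≠ j → ∀ w, w ∈ L i → w ∉ L j := fun i j hij w hi hj => by
    rcases hdis i j hij w (hmem i w hi) (hmem j w hj) with rfl | rfl
    · exact (hleg i).1 hi
    · exact (hleg i).2.1 hi
  have hall : ∀ w, w = u ∨ w = v ∨ ∃ i, w ∈ L i := fun w => by
    obtain ⟨i, hi⟩ := hcov w
    rw [hL i, List.mem_cons, List.mem_append, List.mem_singleton] at hi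
    rcases hi with hi | hi | hi
    · exact Or.inl hi
    · exact Or.inr (Or.inr ⟨i, hi⟩)
    · exact Or.inr (Or.inl hi)
  have hnd : ∀ i j k, i ≠ j → i ≠ k → j ≠ k →
      (u :: v :: (L i ++ (L j ++ L k))).Nodup := by
    intro i j k hij hik hjk
    simp only [List.nodup_cons, List.mem_cons, List.mem_append, not_or, List.nodup_append]
    refine ⟨⟨huv, (hleg i).1, (hleg j).1, (hleg k).1⟩, ⟨(hleg i).2.1, (hleg j).2.1,
      (hleg k).2.1⟩, (hleg i).2.2, ⟨(hleg j).2.2, (hleg k).2.2, ?_⟩, ?_⟩
    · rintro a ha b hb rfl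
      exact hdisj j k hjk a ha hb
    · rintro a ha b (hb | hb) rfl
      · exact hdisj i j hij a ha hb
      · exact hdisj i k hik a ha hb
  have hcard : ∀ i j k, i ≠ j → i ≠ k → j ≠ k →
      N = (L i).length + (L j).length + (L k).length + 2 := by
    intro i j k hij hik hjk
    have h1 := List.toFinset_card_of_nodup (hnd i j k hij hik hjk)
    have h2 : (u :: v :: (L i ++ (L j ++ L k))).toFinset = Finset.univ := by
      rw [Finset.eq_univ_iff_forall]
      intro w
      rw [List.mem_toFinset]
      simp only [List.mem_cons, List.mem_append]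
      rcases hall w with h3 | h3 | ⟨a, h3⟩
      · exact Or.inl h3
      · exact Or.inr (Or.inl h3)
      · rcases three i j k a hij hik hjk with rfl | rfl | rfl
        · exact Or.inr (Or.inr (Or.inl h3))
        · exact Or.inr (Or.inr (Or.inr (Or.inl h3)))
        · exact Or.inr (Or.inr (Or.inr (Or.inr h3)))
    rw [h2, Finset.card_univ, ← hN] at h1
    rw [h1]
    simp only [List.length_cons, List.length_append]
    omega
  have hT3 : T3 G u v L N :=
    ⟨fun i j k h1 h2 h3 => ⟨hC i, hC j, hC k, hnd i j k h1 h2 h3⟩,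
      fun i j k h1 h2 h3 => ⟨hB, hcard i j k h1 h2 h3, by omega⟩, hall⟩
  obtain ⟨P, hP⟩ := hp_of_isEnd hv
  obtain ⟨Q, hQ⟩ := hp_of_isEnd hu
  exact main hT3 hP hQ

end Pool.Agent.Results.MP_2a07a8_co.SpanningTheta
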